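import Pool.Agent.helper73.TC.YDefs

/-!
# TY-6: from the leaves to all members of the families (MP_a50e43_gt)
-/

set_option autoImplicit false
set_option linter.all false
open Topology

noncomputable section
namespace Pool.Agent.helper73.TC

namespace Y6

theorem down (n S : ℕ) (N : List ℕ) : DownClosed (nfc n S N) := by
  intro s hs t hts
  exact ⟨fun i hi => hs.1 i (hts hi), fun m hm h => hs.2 m hm fun i hi => hts (h i hi)⟩

/-- a mask with two bits is not inside a singleton -/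
theorem two_bits {m : ℕ} (hm : MOK m) (v : Fin 20) : ¬ ∀ i : Fin 20, m.testBit i = true → i ∈ ({v} : Finset (Fin 20)) := by
  intro h
  obtain ⟨h1, h2⟩ := hm
  have key : ∀ j, m.testBit j = true → j = v.1 := by
    intro j hj
    have hj20 : j < 20 := by
      by_contra hcon
      have : m < 2 ^ j := lt_of_lt_of_le h1 (by
        calc (1048576 : ℕ) = 2 ^ 20 := by norm_num
          _ ≤ 2 ^ j := Nat.pow_le_pow_right (by norm_num) (by omega))
      rw [Nat.testBit_lt_two_pow this] at hj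
      exact Bool.noConfusion hj
    have := h ⟨j, hj20⟩ hj
    rw [Finset.mem_singleton] at this
    exact congrArg Fin.val this
  have h3 : m = 0 ∨ m = 2 ^ v.1 := by
    by_cases hb : m.testBit v.1 = true
    · right
      apply Nat.eq_of_testBit_eq
      intro j
      rw [Nat.testBit_two_pow]
      by_cases hj : v.1 = j
      · subst hj; simp [hb]
      · have : ¬ m.testBit j = true := fun h' => hj (key j h').symm
        simp only [hj, decide_false]
        simpa using this
    · left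
      apply Nat.eq_of_testBit_eq
      intro j
      rw [Nat.zero_testBit]
      by_contra hcon
      have : m.testBit j = true := by simpa using hcon
      exact hb (key j this ▸ this)
  have h4 : Nat.land m (Nat.pred m) = 0 := by
    rcases h3 with h3 | h3
    · rw [h3]; rfl
    · rw [h3]
      apply Nat.eq_of_testBit_eq
      intro j
      change ((2 ^ v.1) &&& (2 ^ v.1 - 1)).testBit j = _
      rw [Nat.testBit_and, Nat.testBit_two_pow, Nat.testBit_two_pow_sub_one, Nat.zero_testBit]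
      by_cases hj : v.1 = j
      · subst hj; simp
      · simp [hj]
  omega

theorem sing_mem {S : ℕ} {N : List ℕ} (hN : ∀ m ∈ N, MOK m) (v : Fin 20) (hv : S.testBit v.1 = true) :
    ({v} : Finset (Fin 20)) ∈ nfc 20 S N := by
  refine ⟨fun i hi => ?_, fun m hm => two_bits (hN m hm) v⟩
  rw [Finset.mem_singleton] at hi
  rw [hi]; exact hv

theorem real_nonempty {V : Type} [Fintype V] [DecidableEq V] {C : Set (Finset V)} (v : V) (hv : {v} ∈ C) :
    Nonempty (Real C) := by
  refine ⟨⟨⟨Pi.single v 1, single_mem_stdSimplex ℝ v⟩, ?_⟩⟩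
  have : (Finset.univ.filter fun u => 0 < (Pi.single v (1 : ℝ) : V → ℝ) u) = {v} := by
    ext u
    simp only [Finset.mem_filter, Finset.mem_univ, true_and, Finset.mem_singleton]
    by_cases h : u = v
    · subst h; simp
    · simp [h]
  change (Finset.univ.filter fun u => 0 < (Pi.single v (1 : ℝ) : V → ℝ) u) ∈ C
  rw [this]; exact hv

theorem tb_xor (S c j : ℕ) : (Nat.xor S (2 ^ c)).testBit j = (S.testBit j ^^ decide (c = j)) := by
  change (S ^^^ 2 ^ c).testBit j = _
  rw [Nat.testBit_xor, Nat.testBit_two_pow]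

theorem del_eq {S : ℕ} (N : List ℕ) (c : ℕ) (hc : c < 20) (hSc : S.testBit c = true) :
    del (nfc 20 S N) ⟨c, hc⟩ = nfc 20 (Nat.xor S (2 ^ c)) N := by
  ext s
  constructor
  · rintro ⟨⟨h1, h2⟩, h3⟩
    refine ⟨fun i hi => ?_, h2⟩
    rw [tb_xor]
    have : c ≠ i.1 := by
      intro h
      apply h3
      have : (⟨c, hc⟩ : Fin 20) = i := Fin.ext h
      rw [this]; exact hi
    simp [this, h1 i hi]
  · rintro ⟨h1, h2⟩
    refine ⟨⟨fun i hi => ?_, h2⟩, ?_⟩
    · have h3 := h1 i hi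
      rw [tb_xor] at h3
      by_cases h : c = i.1
      · rw [← h]; exact hSc
      · simpa [h] using h3
    · intro hm
      have h3 := h1 _ hm
      rw [tb_xor] at h3
      simp [hSc] at h3

theorem rmp_bit {S c w : ℕ} (h : (rmp S c).testBit w = true) : S.testBit w = true := by
  unfold rmp at h
  change (S ^^^ (S &&& (2 ^ c ||| 2 ^ (Nat.xor c 1)))).testBit w = true at h
  rw [Nat.testBit_xor, Nat.testBit_and] at h
  by_contra hcon
  have : S.testBit w = false := by simpa using hcon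
  rw [this] at h
  simp at h

theorem lt20 {S w : ℕ} (hS : S < 1048576) (h : S.testBit w = true) : w < 20 := by
  by_contra hcon
  have : S < 2 ^ w := lt_of_lt_of_le hS (by
    calc (1048576 : ℕ) = 2 ^ 20 := by norm_num
      _ ≤ 2 ^ w := Nat.pow_le_pow_right (by norm_num) (by omega))
  rw [Nat.testBit_lt_two_pow this] at h
  exact Bool.noConfusion h

theorem link_nonempty {S c : ℕ} {L : List ℕ} (hS : S < 1048576) (hL : ∀ m ∈ L, MOK m) (hr : rmp S c ≠ 0) :
    Nonempty (Real (nfc 20 (rmp S c) L)) := by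
  obtain ⟨w, hw⟩ := Nat.exists_testBit_of_ne_zero hr
  have hw20 := lt20 hS (rmp_bit hw)
  exact real_nonempty ⟨w, hw20⟩ (sing_mem hL ⟨w, hw20⟩ hw)

theorem xor_lt' {S c : ℕ} (hS : S < 1048576) (hc : c < 20) : Nat.xor S (2 ^ c) < 1048576 := by
  have h1 : S < 2 ^ 20 := by norm_num; exact hS
  have h2 : 2 ^ c < 2 ^ 20 := Nat.pow_lt_pow_right (by norm_num) hc
  have := Nat.xor_lt_two_pow h1 h2
  norm_num at this
  exact this

theorem xor_dec {S c : ℕ} (hSc : S.testBit c = true) : Nat.xor S (2 ^ c) < S := by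
  refine Nat.lt_of_testBit c ?_ hSc ?_
  · rw [tb_xor]; simp [hSc]
  · intro j hj
    rw [tb_xor]
    have : c ≠ j := by omega
    simp [this]

theorem xor1 : ∀ c < 20, Nat.xor c 1 = if c % 2 = 0 then c + 1 else c - 1 := by decide

/-- the induction step -/
theorem step (F : Type) [Field F] {S c : ℕ} {N L : List ℕ} (hS : S < 1048576) (hc : c < 20)
    (hSc : S.testBit c = true) (hN : ∀ m ∈ N, MOK m) (hL : ∀ m ∈ L, MOK m)
    (hlk : lk (nfc 20 S N) ⟨c, hc⟩ = nfc 20 (rmp S c) L) (hr : rmp S c ≠ 0)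
    (h0 : Par0 F (Real (nfc 20 (rmp S c) L))) (h1 : Par1 F (Real (nfc 20 (Nat.xor S (2 ^ c)) N))) :
    Par1 F (Real (nfc 20 S N)) := by
  refine par1_step F (nfc 20 S N) ⟨c, hc⟩ (down 20 S N) (sing_mem hN ⟨c, hc⟩ hSc) ?_ ?_ ?_
  · rw [hlk]; exact h0
  · rw [hlk]; exact link_nonempty hS hL hr
  · rw [del_eq N c hc hSc]; exact h1

theorem cmpl_bit {i U c : ℕ} (hc : c < 20) (h1 : 2 * i + 2 ≤ c) : (cmpl i U).testBit c = !U.testBit c := by
  unfold cmpl
  change ((1048575 ^^^ (3 * 4 ^ i)) ^^^ U).testBit c = _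
  have h2 : (1048575 : ℕ).testBit c = true := by
    have : (1048575 : ℕ) = 2 ^ 20 - 1 := by norm_num
    rw [this, Nat.testBit_two_pow_sub_one]
    simp [hc]
  have h3 : (3 * 4 ^ i).testBit c = false := by
    apply Nat.testBit_lt_two_pow
    calc 3 * 4 ^ i < 4 * 4 ^ i := by
          have : 0 < 4 ^ i := Nat.pos_of_ne_zero (by positivity)
          omega
      _ = 2 ^ (2 * i + 2) := by rw [show (4 : ℕ) = 2 ^ 2 by norm_num, ← pow_mul, ← pow_add]; congr 1; omega
      _ ≤ 2 ^ c := Nat.pow_le_pow_right (by norm_num) h1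
  rw [Nat.testBit_xor, Nat.testBit_xor, h2, h3]
  cases U.testBit c <;> rfl

theorem cmpl_lt {i U : ℕ} (hi : i < 10) (hU : U < 1048576) : cmpl i U < 1048576 := by
  have h1 : U < 2 ^ 20 := by norm_num; exact hU
  have h2 : 3 * 4 ^ i < 2 ^ 20 := by
    calc 3 * 4 ^ i ≤ 3 * 4 ^ 9 := Nat.mul_le_mul_left _ (Nat.pow_le_pow_right (by norm_num) (by omega))
      _ < 2 ^ 20 := by norm_num
  have h3 : (1048575 : ℕ) < 2 ^ 20 := by norm_num
  have := Nat.xor_lt_two_pow (Nat.xor_lt_two_pow h3 h2) h1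
  norm_num at this
  exact this

theorem fam_erase {i U c : ℕ} (hc : c < 20) (h1 : 2 * i + 2 ≤ c) (hUc : U.testBit c = true) (hU : FamH i U) :
    FamH i (Nat.xor U (2 ^ c)) := by
  obtain ⟨a1, a2, a3, a4, a5⟩ := hU
  have hb : ∀ j, (Nat.xor U (2 ^ c)).testBit j = true → U.testBit j = true := by
    intro j hj
    rw [tb_xor] at hj
    by_cases h : c = j
    · rw [← h]; exact hUc
    · simpa [h] using hj
  have hb' : ∀ j, j ≠ c → (Nat.xor U (2 ^ c)).testBit j = U.testBit j := by
    intro j hj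
    rw [tb_xor]
    have : c ≠ j := fun h => hj h.symm
    simp [this]
  refine ⟨xor_lt' a1 hc, fun j hj => a2 j ⟨hb _ hj.1, hb _ hj.2⟩, ?_, ?_, ?_⟩
  · rw [hb' _ (by omega)]; exact a3
  · rw [hb' _ (by omega)]; exact a4
  · rcases a5 with a5 | ⟨a5, a6⟩
    · left
      exact fun w hw => a5 w (hb w hw)
    · right
      refine ⟨by rw [hb' _ (by omega)]; exact a5, fun j hj => ?_⟩
      rw [hb' _ (by omega), hb' _ (by omega)]
      exact a6 j hj

theorem fam_insert {i U c : ℕ} (hc : c < 20) (h1 : 2 * i + 2 ≤ c) (hUc : U.testBit c = false)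
    (hUc' : U.testBit (Nat.xor c 1) = false) (hU : FamH i U) : FamH i (Nat.xor U (2 ^ c)) := by
  obtain ⟨a1, a2, a3, a4, a5⟩ := hU
  have hb' : ∀ j, j ≠ c → (Nat.xor U (2 ^ c)).testBit j = U.testBit j := by
    intro j hj
    rw [tb_xor]
    have : c ≠ j := fun h => hj h.symm
    simp [this]
  have hx := xor1 c hc
  refine ⟨xor_lt' a1 hc, fun j hj => ?_, ?_, ?_, ?_⟩
  · by_cases h2 : 2 * j = c
    · rw [if_pos (by omega)] at hx
      have h3 := hj.2
      rw [hb' _ (by omega)] at h3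
      rw [hx, ← h2, h3] at hUc'
      exact Bool.noConfusion hUc'
    · by_cases h3 : 2 * j + 1 = c
      · rw [if_neg (by omega)] at hx
        have h4 := hj.1
        rw [hb' _ h2] at h4
        rw [hx, ← h3, Nat.add_sub_cancel, h4] at hUc'
        exact Bool.noConfusion hUc'
      · rw [hb' _ h2, hb' _ h3] at hj
        exact a2 j hj
  · rw [hb' _ (by omega)]; exact a3
  · rw [hb' _ (by omega)]; exact a4
  · rcases a5 with a5 | ⟨a5, a6⟩
    · left
      intro w hw
      by_cases h : w = c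
      · subst h; omega
      · rw [hb' _ h] at hw
        exact a5 w hw
    · right
      refine ⟨by rw [hb' _ (by omega)]; exact a5, fun j hj => ?_⟩
      rw [hb' _ (by omega), hb' _ (by omega)]
      exact a6 j hj

/-- `fam0` from the facts of TY-2 and TY-5 -/
theorem fam0' (F : Type) [Field F]
    (NV_ok : ∀ i < 10, ∀ m ∈ Pa.NV i, MOK m)
    (NE_ok : ∀ i c : ℕ, i < 10 → 2 * i + 2 ≤ c → c < 20 → ∀ m ∈ Pa.getL (Pa.NE i) c, MOK m)
    (lk_NV : ∀ (i c S : ℕ) (hi : i < 10) (h1 : 2 * i + 2 ≤ c) (hc : c < 20) (hS : S < 1048576)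
      (hSc : S.testBit c = true),
      lk (nfc 20 S (Pa.NV i)) ⟨c, hc⟩ = nfc 20 (rmp S c) (Pa.getL (Pa.NE i) c))
    (good0 : ∀ (i U : ℕ) (hi : i < 10) (hU : FamH i U),
      Good F false (2 * i) (Pa.NV i) (Pa.NE i) U)
    (i : ℕ) (hi : i < 10) : ∀ U : ℕ, FamH i U → Par1 F (Real (nfc 20 U (Pa.NV i))) := by
  intro U
  induction U using Nat.strong_induction_on with
  | _ U ih =>
    intro hU
    rcases good0 i U hi hU with h | ⟨c, h1, hc, hUc, -, hr, h0⟩
    · exact h
    · exact step F hU.1 hc hUc (NV_ok i hi) (NE_ok i c hi h1 hc) (lk_NV i c U hi h1 hc hU.1 hUc) hr h0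
        (ih _ (xor_dec hUc) (fam_erase hc h1 hUc hU))

/-- `fam1` from the facts of TY-2 and TY-5 -/
theorem fam1' (F : Type) [Field F]
    (NV_ok : ∀ i < 10, ∀ m ∈ Pa.NV i, MOK m)
    (NE_ok : ∀ i c : ℕ, i < 10 → 2 * i + 2 ≤ c → c < 20 → ∀ m ∈ Pa.getL (Pa.NE i) c, MOK m)
    (lk_NV : ∀ (i c S : ℕ) (hi : i < 10) (h1 : 2 * i + 2 ≤ c) (hc : c < 20) (hS : S < 1048576)
      (hSc : S.testBit c = true),
      lk (nfc 20 S (Pa.NV i)) ⟨c, hc⟩ = nfc 20 (rmp S c) (Pa.getL (Pa.NE i) c))
    (good1 : ∀ (i U : ℕ) (hi : i < 10) (hU : FamH i U),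
      Good F true (2 * i) (Pa.NV i) (Pa.NE i) (cmpl i U))
    (i : ℕ) (hi : i < 10) : ∀ S U : ℕ, S = cmpl i U → FamH i U → Par1 F (Real (nfc 20 S (Pa.NV i))) := by
  intro S
  induction S using Nat.strong_induction_on with
  | _ S ih =>
    intro U hS hU
    have hS20 : S < 1048576 := by rw [hS]; exact cmpl_lt hi hU.1
    have hg := good1 i U hi hU
    rw [← hS] at hg
    rcases hg with h | ⟨c, h1, hc, hSc, hSc', hr, h0⟩
    · exact h
    · have hSc' := hSc' rfl
      have hx := xor1 c hc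
      have hUc : U.testBit c = false := by
        rw [hS, cmpl_bit hc h1] at hSc
        simpa using hSc
      have h20 : Nat.xor c 1 < 20 := lt20 hS20 hSc'
      have h21 : 2 * i + 2 ≤ Nat.xor c 1 := by rw [hx]; split_ifs <;> omega
      have hUc' : U.testBit (Nat.xor c 1) = false := by
        rw [hS, cmpl_bit h20 h21] at hSc'
        simpa using hSc'
      refine step F hS20 hc hSc (NV_ok i hi) (NE_ok i c hi h1 hc) (lk_NV i c S hi h1 hc hS20 hSc) hr h0
        (ih _ (xor_dec hSc) (Nat.xor U (2 ^ c)) ?_ (fam_insert hc h1 hUc hUc' hU))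
      rw [hS]
      unfold cmpl
      exact Nat.xor_assoc _ _ _

end Y6

end Pool.Agent.helper73.TC
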